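import Mathlib.Combinatorics.SimpleGraph.Clique
import Mathlib.Combinatorics.SimpleGraph.Copy

namespace Pool.Agent.Lib.MP_7f80d9_lc

/-- Contraction of the edge `uv`: the vertex `v` is removed and `u` stands for the new vertex,
adjacent to every vertex that was adjacent to `u` or to `v`. -/
def contract {V : Type} (G : SimpleGraph V) (u v : V) : SimpleGraph {x : V // x ≠ v} where
  Adj x y := x ≠ y ∧ (G.Adj x y ∨ (x.1 = u ∧ G.Adj v y) ∨ (y.1 = u ∧ G.Adj x v))
  symm := ⟨fun _ _ h => ⟨h.1.symm, h.2.elim (fun h => .inl h.symm) fun h =>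
    .inr (h.elim (fun h => .inr ⟨h.1, h.2.symm⟩) fun h => .inl ⟨h.1, h.2.symm⟩)⟩⟩
  loopless := ⟨fun _ h => h.1 rfl⟩

/-- No induced subgraph isomorphic to the claw `K_{1,3}`. -/
def ClawFree {V : Type} (G : SimpleGraph V) : Prop :=
  ¬ (completeBipartiteGraph (Fin 1) (Fin 3)).IsIndContained G

/-- `G` can be made claw-free by contracting at most `k` edges, one after the other. -/
def ClawFreeContractible : ℕ → {V : Type} → SimpleGraph V → Prop
  | 0, _, G => ClawFree G
  | k + 1, _, G => ClawFree G ∨ ∃ u v, G.Adj u v ∧ ClawFreeContractible k (contract G u v)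

/-- An instance: a graph on `{0, …, n-1}` and a parameter `k`. -/
structure Inst where
  n : ℕ
  G : SimpleGraph (Fin n)
  k : ℕ

open Classical in
/-- The bit string `1^n 0 1^k 0` followed by the `n × n` adjacency matrix, row by row. -/
noncomputable def Inst.code (I : Inst) : List Bool :=
  List.replicate I.n true ++ false :: (List.replicate I.k true ++ false ::
    (List.finRange I.n).flatMap fun i => (List.finRange I.n).map fun j => decide (I.G.Adj i j))

end Pool.Agent.Lib.MP_7f80d9_lc
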