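import Pool.Agent.Lib.MP_7f80d9_lc.Witness

/-! The gadget graph and its correctness. -/

namespace Pool.Agent.Lib.MP_7f80d9_lc

open SimpleGraph

inductive Vx (A I J : Type) : Type
  | v : A → Vx A I J
  | p : A → A → Vx A I J
  | z : Vx A I J
  | x : I → Vx A I J
  | b : I → J → Vx A I J

variable {A I J : Type}

def gadj (R : A → A → Prop) : Vx A I J → Vx A I J → Prop
  | .v a, .v a' => a ≠ a'
  | .v a, .p u w => R u w ∧ (a = u ∨ a = w)
  | .v _, .z => True
  | .v _, .x _ => False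
  | .v _, .b _ _ => False
  | .p u w, .v a => R u w ∧ (a = u ∨ a = w)
  | .p u w, .p u' w' => ¬ (u = u' ∧ w = w')
  | .p _ _, .z => True
  | .p u w, .x _ => R u w
  | .p _ _, .b _ _ => False
  | .z, .v _ => True
  | .z, .p _ _ => True
  | .z, .z => False
  | .z, .x _ => True
  | .z, .b _ _ => False
  | .x _, .v _ => False
  | .x _, .p u w => R u w
  | .x _, .z => True
  | .x _, .x _ => False
  | .x i, .b i' _ => i = i'
  | .b _ _, .v _ => False
  | .b _ _, .p _ _ => False
  | .b _ _, .z => False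
  | .b i _, .x i' => i = i'
  | .b i j, .b i' j' => i = i' ∧ j ≠ j'

def gadget (I J : Type) (R : A → A → Prop) : SimpleGraph (Vx A I J) where
  Adj := gadj R
  symm := ⟨fun a b => by cases a <;> cases b <;> simp only [gadj] <;> tauto⟩
  loopless := ⟨fun a => by cases a <;> simp [gadj]⟩

theorem gadget_adj (R : A → A → Prop) (a b : Vx A I J) : (gadget I J R).Adj a b ↔ gadj R a b :=
  Iff.rfl

/-- The clique formed by the pair vertices and `z`. -/
def Ep : Vx A I J → Prop
  | .p _ _ => True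
  | .z => True
  | _ => False

theorem nbr_b {R : A → A → Prop} {i : I} {j : J} {y : Vx A I J}
    (h : (gadget I J R).Adj (.b i j) y) : y = .x i ∨ ∃ j', y = .b i j' := by
  cases y <;> simp_all [gadget_adj, gadj]

theorem nbr_x {R : A → A → Prop} {i : I} {y : Vx A I J} (h : (gadget I J R).Adj (.x i) y) :
    (y = .z ∨ ∃ u w, R u w ∧ y = .p u w) ∨ ∃ j', y = .b i j' := by
  cases y <;> simp_all [gadget_adj, gadj]

theorem nbr_p {R : A → A → Prop} {u w : A} {y : Vx A I J} (h : (gadget I J R).Adj (.p u w) y) :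
    Ep y ∨ (R u w ∧ ((∃ i, y = .x i) ∨ y = .v u ∨ y = .v w)) := by
  cases y <;> simp_all [gadget_adj, gadj, Ep]

theorem nbr_v {R : A → A → Prop} {a : A} {y : Vx A I J} (h : (gadget I J R).Adj (.v a) y) :
    (y = .z ∨ ∃ a, y = .v a) ∨ ∃ w, R a w ∨ R w a := by
  cases y with
  | p u w =>
    obtain ⟨h1, rfl | rfl⟩ := h
    · exact .inr ⟨w, .inl h1⟩
    · exact .inr ⟨u, .inr h1⟩
  | _ => simp_all [gadget_adj, gadj]

theorem exists_pure {V W B : Type} {φ : V → W} {K : ℕ} (h : Count φ K) (s : Finset B)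
    (hs : K < s.card) (g : B → V) (hg : Function.Injective g) :
    ∃ a ∈ s, ∀ y, φ y = φ (g a) → ∃ a' ∈ s, y = g a' := by
  classical
  by_contra hc
  push Not at hc
  have := h (s.image g) (by
    intro r hr
    obtain ⟨a, ha, rfl⟩ := Finset.mem_image.1 hr
    obtain ⟨y, e, hy⟩ := hc a ha
    refine ⟨y, fun hy' => ?_, e⟩
    obtain ⟨a', ha', rfl⟩ := Finset.mem_image.1 hy'
    exact hy a' ha' rfl)
  rw [Finset.card_image_of_injective _ hg] at this
  omega

theorem sound [Fintype I] [Fintype J] {R : A → A → Prop} {k : ℕ} (hI : Fintype.card I = k * k)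
    (hJ : k * k + k < Fintype.card J) (s : Finset A) (hs : k * k + k < s.card)
    (hs' : ∀ a ∈ s, ∀ w, ¬ R a w ∧ ¬ R w a)
    (h : ClawFreeContractible (k * k + k) (gadget I J R)) :
    ∃ Q : Finset A, Q.card = k ∧ ∀ u ∈ Q, ∀ w ∈ Q, R u w := by
  classical
  obtain ⟨W, φ, hcf, hconn, hcount⟩ := witness _ _ h
  rw [clawFree_iff] at hcf
  obtain ⟨d, hd, hd'⟩ := exists_pure hcount s hs (fun a => (.p a a : Vx A I J))
    (fun a a' h => by injection h)
  obtain ⟨o, ho, ho'⟩ := exists_pure hcount s hs (fun a => (.v a : Vx A I J))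
    (fun a a' h => by injection h)
  have hb : ∀ i : I, ∃ j : J, ∀ y, φ y = φ (.b i j) → ∃ j', y = .b i j' := fun i => by
    obtain ⟨j, -, hj⟩ := exists_pure hcount Finset.univ hJ (fun j => (.b i j : Vx A I J))
      (fun a a' h => by injection h)
    exact ⟨j, fun y hy => let ⟨j', _, e⟩ := hj y hy; ⟨j', e⟩⟩
  choose bj hbj using hb
  have nd : ∀ y, (∀ a, y ≠ .p a a) → φ y ≠ φ (.p d d) := fun y hy e =>
    let ⟨a, _, e'⟩ := hd' y e; hy a e'
  have no : ∀ y, (∀ a, y ≠ .v a) → φ y ≠ φ (.v o) := fun y hy e =>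
    let ⟨a, _, e'⟩ := ho' y e; hy a e'
  have nb : ∀ i y, (∀ j, y ≠ .b i j) → φ y ≠ φ (.b i (bj i)) := fun i y hy e =>
    let ⟨a, e'⟩ := hbj i y e; hy a e'
  -- neighbours of the three kinds of pure classes
  have ad : ∀ c, (quot (gadget I J R) φ).Adj (φ (.p d d)) c → ∃ y, φ y = c ∧ Ep y := by
    rintro c ⟨-, x, y, e, rfl, hadj⟩
    obtain ⟨a, ha, rfl⟩ := hd' x e
    exact ⟨y, rfl, (nbr_p hadj).resolve_right fun h => (hs' a ha a).1 h.1⟩
  have ao : ∀ c, (quot (gadget I J R) φ).Adj (φ (.v o)) c →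
      ∃ y, φ y = c ∧ (y = .z ∨ ∃ a, y = .v a) := by
    rintro c ⟨-, x, y, e, rfl, hadj⟩
    obtain ⟨a, ha, rfl⟩ := ho' x e
    exact ⟨y, rfl, (nbr_v hadj).resolve_right fun ⟨w, h⟩ => h.elim (hs' a ha w).1 (hs' a ha w).2⟩
  have ab : ∀ i c, (quot (gadget I J R) φ).Adj (φ (.b i (bj i))) c →
      ∃ y, φ y = c ∧ (y = .x i ∨ ∃ j, y = .b i j) := by
    rintro i c ⟨-, x, y, e, rfl, hadj⟩
    obtain ⟨a, rfl⟩ := hbj i x e
    exact ⟨y, rfl, nbr_b hadj⟩
  have mdo : ¬ (quot (gadget I J R) φ).Adj (φ (.v o)) (φ (.p d d)) := fun h => by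
    obtain ⟨y, e, rfl | ⟨a, rfl⟩⟩ := ao _ h <;> exact nd _ (by simp) e
  have mbd : ∀ i, ¬ (quot (gadget I J R) φ).Adj (φ (.b i (bj i))) (φ (.p d d)) := fun i h => by
    obtain ⟨y, e, rfl | ⟨a, rfl⟩⟩ := ab i _ h <;> exact nd _ (by simp) e
  have mbo : ∀ i, ¬ (quot (gadget I J R) φ).Adj (φ (.b i (bj i))) (φ (.v o)) := fun i h => by
    obtain ⟨y, e, rfl | ⟨a, rfl⟩⟩ := ab i _ h <;> exact no _ (by simp) e
  have axb : ∀ i, (quot (gadget I J R) φ).Adj (φ (.x i)) (φ (.b i (bj i))) := fun i =>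
    quot_adj (by simp [gadget_adj, gadj]) (nb i _ (by simp))
  -- the class of `x i` meets the clique of pair vertices
  have cA : ∀ i, ∃ y, φ y = φ (.x i) ∧ (y = .z ∨ ∃ u w, R u w ∧ y = .p u w) := by
    intro i
    by_cases hc : ∃ y, φ y = φ (.x i) ∧ ¬ (y = .x i ∨ ∃ j, y = .b i j)
    · obtain ⟨y, e, hy⟩ := hc
      obtain ⟨x', y', hx', hy', hadj, -, e2⟩ :=
        hconn {t | t = .x i ∨ ∃ j, t = .b i j} (.x i) y (.inl rfl) hy e.symm
      refine ⟨y', e2, ?_⟩
      rcases hx' with rfl | ⟨j, rfl⟩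
      · exact (nbr_x hadj).resolve_right fun h => hy' (.inr h)
      · exact absurd (nbr_b hadj) hy'
    replace hc : ∀ y, φ y = φ (.x i) → (y = .x i ∨ ∃ j, y = .b i j) := fun y e =>
      by_contra fun h => hc ⟨y, e, h⟩
    exfalso
    have hz : φ .z ≠ φ (.x i) := fun e => by simpa using hc _ e
    refine hcf (φ .z) (φ (.x i)) (φ (.v o)) (φ (.p d d))
      (quot_adj (by simp [gadget_adj, gadj]) hz)
      (quot_adj (by simp [gadget_adj, gadj]) (no _ (by simp)))
      (quot_adj (by simp [gadget_adj, gadj]) (nd _ (by simp)))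
      (no _ (by simp)) (nd _ (by simp)) (nd _ (by simp)) (fun h => ?_) (fun h => ?_) mdo
    · obtain ⟨y, e, rfl | ⟨a, rfl⟩⟩ := ao _ h.symm <;> simpa using hc _ e
    · obtain ⟨y, e, hy⟩ := ad _ h.symm
      rcases hc _ e with rfl | ⟨j, rfl⟩ <;> exact hy
  have axd : ∀ i, (quot (gadget I J R) φ).Adj (φ (.x i)) (φ (.p d d)) := fun i => by
    have hne : φ (.x i) ≠ φ (.p d d) := nd _ (by simp)
    obtain ⟨y, e, hy⟩ := cA i
    rw [← e] at hne ⊢
    refine quot_adj ?_ hne
    rcases hy with rfl | ⟨u, w, -, rfl⟩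
    · simp [gadget_adj, gadj]
    · rintro ⟨rfl, rfl⟩
      exact hne rfl
  have cB : ∀ i y, φ y = φ (.x i) → ¬ (y = .z ∨ ∃ a, y = .v a) := by
    intro i y e hy
    have hne : φ (.x i) ≠ φ (.v o) := no _ (by simp)
    refine hcf (φ (.x i)) (φ (.b i (bj i))) (φ (.v o)) (φ (.p d d)) (axb i) ?_ (axd i)
      (no _ (by simp)) (nd _ (by simp)) (nd _ (by simp)) (mbo i) (mbd i) mdo
    rw [← e] at hne ⊢
    refine quot_adj ?_ hne
    rcases hy with rfl | ⟨a, rfl⟩
    · simp [gadget_adj, gadj]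
    · rintro rfl
      exact hne rfl
  have cC : ∀ i j, φ (.x i) = φ (.x j) → i = j := by
    intro i j e
    by_contra hij
    refine hcf (φ (.x i)) (φ (.b i (bj i))) (φ (.b j (bj j))) (φ (.p d d)) (axb i) (e ▸ axb j)
      (axd i) (nb j _ (by simp [hij])) (nd _ (by simp)) (nd _ (by simp)) (fun h => ?_) (mbd i)
      (mbd j)
    obtain ⟨y, e', rfl | ⟨a, rfl⟩⟩ := ab i _ h <;> exact nb j _ (by simp [hij]) e'
  have cD : ∀ i, ∃ q : A × A, R q.1 q.2 ∧ φ (.p q.1 q.2) = φ (.x i) := by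
    intro i
    obtain ⟨y, e, rfl | ⟨u, w, h, rfl⟩⟩ := cA i
    · exact absurd (.inl rfl) (cB i _ e)
    · exact ⟨(u, w), h, e⟩
  choose q hq hq' using cD
  have cE : ∀ i t, (t = (q i).1 ∨ t = (q i).2) → ∃ y, φ y = φ (.v t) ∧ Ep y := by
    intro i t ht
    have hne : φ (.v t) ≠ φ (.x i) := fun e => cB i _ e (.inr ⟨t, rfl⟩)
    refine ad _ ?_
    by_contra hc
    refine hcf (φ (.x i)) (φ (.b i (bj i))) (φ (.p d d)) (φ (.v t)) (axb i) (axd i) ?_
      (nd _ (by simp)) (nb i _ (by simp)).symm (nd _ (by simp)).symm (mbd i) (fun h => ?_) hc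
    · rw [← hq' i] at hne ⊢
      exact quot_adj ⟨hq i, ht⟩ hne.symm
    · obtain ⟨y, e, rfl | ⟨j, rfl⟩⟩ := ab i _ h
      · exact hne e.symm
      · obtain ⟨x', y', ⟨j', rfl⟩, hy', hadj, -, e2⟩ :=
          hconn {t | ∃ j, t = .b i j} (.b i j) (.v t) ⟨j, rfl⟩ (by simp) e
        obtain rfl := (nbr_b hadj).resolve_right hy'
        exact hne (e2.trans e).symm
  let Q : Finset A := Finset.univ.image (fun i => (q i).1) ∪ Finset.univ.image (fun i => (q i).2)
  have hQ : ∀ t ∈ Q, ∃ i, t = (q i).1 ∨ t = (q i).2 := by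
    intro t ht
    simp only [Q, Finset.mem_union, Finset.mem_image, Finset.mem_univ, true_and] at ht
    rcases ht with ⟨i, rfl⟩ | ⟨i, rfl⟩
    · exact ⟨i, .inl rfl⟩
    · exact ⟨i, .inr rfl⟩
  have hcard := hcount (Finset.univ.image (fun i => (.x i : Vx A I J)) ∪ Q.image .v) (by
    intro r hr
    simp only [Finset.mem_union, Finset.mem_image, Finset.mem_univ, true_and] at hr
    rcases hr with ⟨i, rfl⟩ | ⟨t, ht, rfl⟩
    · exact ⟨_, by simp, hq' i⟩
    · obtain ⟨i, hi⟩ := hQ t ht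
      obtain ⟨y, e, hy⟩ := cE i t hi
      refine ⟨y, ?_, e⟩
      cases y <;> first | exact absurd hy id | simp)
  rw [Finset.card_union_of_disjoint (by simp [Finset.disjoint_left]),
    Finset.card_image_of_injective _ (fun a a' h => by injection h),
    Finset.card_image_of_injective _ (fun a a' h => by injection h), Finset.card_univ, hI] at hcard
  have hinj : Function.Injective q := fun i j e => cC i j (by rw [← hq' i, ← hq' j, e])
  have hsub : Finset.univ.image q ⊆ Q ×ˢ Q := by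
    intro t ht
    obtain ⟨i, -, rfl⟩ := Finset.mem_image.1 ht
    simp [Q]
  have hc2 : (Finset.univ.image q).card = k * k := by
    rw [Finset.card_image_of_injective _ hinj, Finset.card_univ, hI]
  have hle := Finset.card_le_card hsub
  rw [hc2, Finset.card_product] at hle
  have hk : Q.card = k := by
    have : k ≤ Q.card := Nat.mul_self_le_mul_self_iff.1 hle
    omega
  have heq : Finset.univ.image q = Q ×ˢ Q :=
    Finset.eq_of_subset_of_card_le hsub (by rw [hc2, Finset.card_product, hk])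
  refine ⟨Q, hk, fun u hu w hw => ?_⟩
  have : (u, w) ∈ Finset.univ.image q := by rw [heq]; simp [hu, hw]
  obtain ⟨i, -, e⟩ := Finset.mem_image.1 this
  have := hq i
  rwa [e] at this

def cls : Vx A I J → Option (Option I)
  | .v _ => none
  | .p _ _ => some none
  | .z => some none
  | .x i => some (some i)
  | .b i _ => some (some i)

theorem adj_of_cls (R : A → A → Prop) {a b : Vx A I J} (hab : a ≠ b) (h : cls a = cls b)
    (ha : ∀ i, a ≠ .x i) : (gadget I J R).Adj a b := by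
  cases a <;> cases b <;> simp_all [gadget_adj, gadj, cls]

theorem three_cls {a b c : Option (Option I)} (h1 : a ≠ b) (h2 : a ≠ c) (h3 : b ≠ c) :
    (∃ i, a = some (some i)) ∨ (∃ i, b = some (some i)) ∨ ∃ i, c = some (some i) := by
  rcases a with _ | _ | a <;> rcases b with _ | _ | b <;> rcases c with _ | _ | c <;> simp_all

theorem complete [Fintype I] {R : A → A → Prop} {k : ℕ} (hI : Fintype.card I = k * k)
    (Q : Finset A) (hQ : Q.card = k) (hR : ∀ u ∈ Q, ∀ w ∈ Q, R u w) :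
    ClawFreeContractible (k * k + k) (gadget I J R) := by
  classical
  obtain ⟨e⟩ : Nonempty (I ≃ Q × Q) := Fintype.card_eq.1 (by simp [hI, hQ])
  let φ : Vx A I J → Vx A I J := fun y => match y with
    | .v a => if a ∈ Q then .z else .v a
    | .x i => .p (e i).1 (e i).2
    | y => y
  have hidem : ∀ y, φ (φ y) = φ y := by
    intro y
    cases y with
    | v a => by_cases ha : a ∈ Q <;> simp [φ, ha]
    | _ => rfl
  have hnx : ∀ y i, φ y ≠ .x i := by
    intro y i
    cases y with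
    | v a => by_cases ha : a ∈ Q <;> simp [φ, ha]
    | _ => simp [φ]
  refine of_map _ _ φ (Finset.univ.image (fun i => (.x i : Vx A I J)) ∪ Q.image .v) ?_ ?_ ?_ ?_
  · refine (Finset.card_union_le _ _).trans (Nat.add_le_add ?_ ?_)
    · exact Finset.card_image_le.trans (by simp [hI])
    · exact Finset.card_image_le.trans hQ.le
  · have : ∀ y, y ∉ Finset.univ.image (fun i => (.x i : Vx A I J)) ∪ Q.image .v → φ y = y := by
      intro y hy
      cases y with
      | v a =>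
        have ha : a ∉ Q := by simpa using hy
        simp [φ, ha]
      | x i => simp at hy
      | _ => rfl
    intro x y hx hy h
    rwa [this x hx, this y hy] at h
  · intro r hr
    simp only [Finset.mem_union, Finset.mem_image, Finset.mem_univ, true_and] at hr
    rcases hr with ⟨i, rfl⟩ | ⟨t, ht, rfl⟩
    · exact ⟨.p (e i).1 (e i).2, by simp, hR _ (e i).1.2 _ (e i).2.2, rfl⟩
    · exact ⟨.z, by simp, trivial, by simp [φ, ht]⟩
  have fix : ∀ {c a}, (quot (gadget I J R) φ).Adj c a → φ a = a ∧ ∀ i, a ≠ .x i := by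
    rintro c a ⟨-, x, y, -, rfl, -⟩
    exact ⟨hidem y, hnx y⟩
  have same : ∀ {c a a'}, (quot (gadget I J R) φ).Adj c a → (quot (gadget I J R) φ).Adj c a' →
      a ≠ a' → cls a = cls a' → (quot (gadget I J R) φ).Adj a a' := by
    intro c a a' h h' hne hc
    exact ⟨hne, a, a', (fix h).1, (fix h').1, adj_of_cls R hne hc (fix h).2⟩
  have f1 : ∀ {c a i}, (quot (gadget I J R) φ).Adj c a → cls a = some (some i) →
      c = φ (.x i) ∨ ∃ j, c = .b i j := by
    rintro c a i ⟨-, x, y, rfl, rfl, hadj⟩ hc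
    cases y with
    | v a => by_cases ha : a ∈ Q <;> simp [φ, ha, cls] at hc
    | b i' j =>
      obtain rfl : i' = i := by simpa [φ, cls] using hc
      rcases nbr_b hadj.symm with rfl | ⟨j', rfl⟩
      · exact .inl rfl
      · exact .inr ⟨j', rfl⟩
    | _ => simp [φ, cls] at hc
  have f2 : ∀ {c a i}, (quot (gadget I J R) φ).Adj c a → (c = φ (.x i) ∨ ∃ j, c = .b i j) →
      cls a = some none ∨ cls a = some (some i) := by
    rintro c a i ⟨-, x, y, rfl, rfl, hadj⟩ hc
    have hE : ∀ y, Ep y → cls (φ y) = some none := by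
      intro y hy
      cases y <;> first | exact absurd hy id | rfl
    cases x with
    | v a => by_cases ha : a ∈ Q <;> simp [φ, ha] at hc
    | z => simp [φ] at hc
    | p u w =>
      obtain ⟨rfl, rfl⟩ : u = (e i).1 ∧ w = (e i).2 := by simpa [φ] using hc
      left
      rcases nbr_p hadj with h | ⟨-, ⟨i', rfl⟩ | rfl | rfl⟩
      · exact hE _ h
      · rfl
      · simp [φ, cls]
      · simp [φ, cls]
    | x i' =>
      obtain rfl : i' = i := by
        have : (e i').1 = (e i).1 ∧ (e i').2 = (e i).2 := by simpa [φ] using hc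
        exact e.injective (Prod.ext this.1 this.2)
      rcases nbr_x hadj with (rfl | ⟨u, w, -, rfl⟩) | ⟨j, rfl⟩
      · exact .inl rfl
      · exact .inl rfl
      · exact .inr rfl
    | b i' j =>
      obtain rfl : i' = i := by simpa [φ] using hc
      rcases nbr_b hadj with rfl | ⟨j', rfl⟩
      · exact .inl rfl
      · exact .inr rfl
  rw [clawFree_iff]
  intro c a₁ a₂ a₃ h1 h2 h3 n12 n13 n23 m12 m13 m23
  have c12 : cls a₁ ≠ cls a₂ := fun h => m12 (same h1 h2 n12 h)
  have c13 : cls a₁ ≠ cls a₃ := fun h => m13 (same h1 h3 n13 h)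
  have c23 : cls a₂ ≠ cls a₃ := fun h => m23 (same h2 h3 n23 h)
  obtain ⟨i, hi⟩ : ∃ i, c = φ (.x i) ∨ ∃ j, c = .b i j := by
    rcases three_cls c12 c13 c23 with ⟨i, e⟩ | ⟨i, e⟩ | ⟨i, e⟩
    exacts [⟨i, f1 h1 e⟩, ⟨i, f1 h2 e⟩, ⟨i, f1 h3 e⟩]
  rcases f2 h1 hi with e1 | e1 <;> rcases f2 h2 hi with e2 | e2 <;>
    rcases f2 h3 hi with e3 | e3 <;>
    first | exact c12 (e1.trans e2.symm) | exact c13 (e1.trans e3.symm) | exact c23 (e2.trans e3.symm)

end Pool.Agent.Lib.MP_7f80d9_lc
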