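import Pool.Agent.Lib.MP_7f80d9_lc.Gadget

/-! The gadget graph for the reduction from Dominating Set, and its correctness.

Vertex classes: `0 = C`, `1 = Y`, `2 = B`, `3 = A₀`, `4 = A₁`, `5 = W₀`, `6 = W₁` (copies indexed by `J`),
`7 = z` (one vertex), `8 = S` (one vertex `s a` for each `a`), `9 = E` (copies `e a j` of each `a`).
The graph is the union of the cliques `S B z`, `A₀ A₁ S z`, `C A₀ A₁ z`, `E C A₀ A₁`, `E C W₀ W₁`,
`C Y W₀ W₁`, `A₀ W₀`, `A₁ W₁`, with the edges `s a — e b j` for `R a b`. -/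

namespace Pool.Agent.Lib.MP_7f80d9_lc.DS

open SimpleGraph

inductive Wx (A J : Type) : Type
  | z : Wx A J
  | s : A → Wx A J
  | e : A → J → Wx A J
  | o : Fin 7 → J → Wx A J

variable {A J : Type}

def up7 (c : Fin 7) : Fin 10 := c.castLE (by decide)

theorem up7_ne : ∀ c, up7 c ≠ 7 ∧ up7 c ≠ 8 ∧ up7 c ≠ 9 := by decide

def cl : Wx A J → Fin 10
  | .z => 7
  | .s _ => 8
  | .e _ _ => 9
  | .o c _ => up7 c

/-- The `10 × 10` table of the pairs of classes that lie in a common clique. -/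
def tabL : List Bool :=
  [true, true, false, true, true, true, true, true, false, true,
   true, true, false, false, false, true, true, false, false, false,
   false, false, true, false, false, false, false, true, true, false,
   true, false, false, true, true, true, false, true, true, true,
   true, false, false, true, true, false, true, true, true, true,
   true, true, false, true, false, true, true, false, false, true,
   true, true, false, false, true, true, true, false, false, true,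
   true, false, true, true, true, false, false, true, true, false,
   false, false, true, true, true, false, false, true, true, false,
   true, false, false, true, true, true, true, false, false, true]

def tab (a b : Fin 10) : Bool := tabL.getD (a.1 * 10 + b.1) false

theorem tab_symm : ∀ a b, tab a b = tab b a := by decide

def cross (R : A → A → Prop) : Wx A J → Wx A J → Prop
  | .s a, .e b _ => R a b
  | _, _ => False

theorem cross_elim {R : A → A → Prop} {x y : Wx A J} (h : cross R x y) :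
    ∃ a b j, x = .s a ∧ y = .e b j ∧ R a b := by
  cases x <;> cases y <;> first | exact ⟨_, _, _, rfl, rfl, h⟩ | exact absurd h id

theorem cross_cl {R : A → A → Prop} {x y : Wx A J} (h : cross R x y) : cl x = 8 ∧ cl y = 9 := by
  obtain ⟨a, b, j, rfl, rfl, -⟩ := cross_elim h
  exact ⟨rfl, rfl⟩

def gad (J : Type) (R : A → A → Prop) : SimpleGraph (Wx A J) where
  Adj x y := x ≠ y ∧ (tab (cl x) (cl y) = true ∨ cross R x y ∨ cross R y x)
  symm := ⟨fun _ _ h => ⟨h.1.symm, h.2.imp (fun h => by rwa [tab_symm]) Or.symm⟩⟩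
  loopless := ⟨fun _ h => h.1 rfl⟩

theorem sound [Fintype A] [Fintype J] {R : A → A → Prop} {k : ℕ} (hJ : k < Fintype.card J)
    (h : ClawFreeContractible k (gad J R)) :
    ∃ D : Finset A, D.card ≤ k ∧ ∀ b, ∃ a ∈ D, R a b := by
  classical
  obtain ⟨W, φ, hcf, -, hcount⟩ := witness _ _ h
  rw [clawFree_iff] at hcf
  have ho : ∀ c : Fin 7, ∃ j : J, ∀ y, φ y = φ (.o c j) → cl y = up7 c := fun c => by
    obtain ⟨j, -, hj⟩ := exists_pure hcount Finset.univ hJ (fun j => (.o c j : Wx A J))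
      (fun a a' h => by injection h)
    refine ⟨j, fun y hy => ?_⟩
    obtain ⟨j', -, rfl⟩ := hj y hy
    rfl
  choose oj hoj using ho
  have he : ∀ b : A, ∃ j : J, ∀ y, φ y = φ (.e b j) → ∃ j', y = .e b j' := fun b => by
    obtain ⟨j, -, hj⟩ := exists_pure hcount Finset.univ hJ (fun j => (.e b j : Wx A J))
      (fun a a' h => by injection h)
    exact ⟨j, fun y hy => let ⟨j', _, e⟩ := hj y hy; ⟨j', e⟩⟩
  choose ej hej using he
  have ad : ∀ x y, tab (cl x) (cl y) = true → φ x ≠ φ y → (quot (gad J R) φ).Adj (φ x) (φ y) :=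
    fun x y h hne => quot_adj ⟨fun e => hne (congrArg φ e), .inl h⟩ hne
  have ne : ∀ x c, cl x ≠ up7 c → φ x ≠ φ (.o c (oj c)) := fun x c h e => h (hoj c x e)
  have na : ∀ (c : Fin 7) (v : W) (Q : Fin 10 → Prop), (∀ y, φ y = v → Q (cl y)) →
      (∀ b, Q b → tab (up7 c) b = false) → ¬ (quot (gad J R) φ).Adj (φ (.o c (oj c))) v := by
    rintro c v Q hQ ht ⟨-, x, y, ex, ey, -, h | h | h⟩
    · rw [hoj c x ex, ht _ (hQ y ey)] at h
      exact absurd h (by simp)
    · exact absurd ((hoj c x ex).symm.trans (cross_cl h).1) (up7_ne c).2.1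
    · exact absurd ((hoj c x ex).symm.trans (cross_cl h).2) (up7_ne c).2.2
  have nn : ∀ c c' : Fin 7, tab (up7 c) (up7 c') = false →
      ¬ (quot (gad J R) φ).Adj (φ (.o c (oj c))) (φ (.o c' (oj c'))) := fun c c' h =>
    na c _ (· = up7 c') (hoj c') (by rintro _ rfl; exact h)
  have hw : ∀ (w a : Fin 7) y, φ y = φ .z → tab (cl y) (up7 w) = true → tab 7 (up7 a) = true →
      up7 w ≠ 7 → up7 a ≠ 7 → tab (up7 w) (up7 a) = false → tab (up7 w) (up7 2) = false →
      tab (up7 a) (up7 2) = false → False := by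
    intro w a y e h1 h2 h3 h4 h5 h6 h7
    have d : ∀ p q : Fin 10, tab p q = false → p ≠ q := by decide
    refine hcf (φ .z) (φ (.o w (oj w))) (φ (.o a (oj a))) (φ (.o 2 (oj 2))) ?_
      (ad _ _ h2 (ne _ _ h4.symm)) (ad _ _ rfl (ne _ _ (up7_ne _).1.symm))
      (ne _ _ (d _ _ h5)) (ne _ _ (d _ _ h6)) (ne _ _ (d _ _ h7)) (nn _ _ h5) (nn _ _ h6) (nn _ _ h7)
    have hne := ne .z w h3.symm
    rw [← e] at hne ⊢
    exact ad _ _ h1 hne
  have hZ : ∀ y, φ y = φ .z → cl y = 2 ∨ cl y = 7 ∨ cl y = 8 := by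
    intro y e
    have d : ∀ p : Fin 10, ¬ tab p (up7 5) = true → ¬ tab p (up7 6) = true →
        p = 2 ∨ p = 7 ∨ p = 8 := by decide
    refine d _ (fun h => hw 5 4 y e h ?_ ?_ ?_ ?_ ?_ ?_) (fun h => hw 6 3 y e h ?_ ?_ ?_ ?_ ?_ ?_) <;>
      decide
  refine ⟨Finset.univ.filter fun a => φ (.s a) = φ .z, ?_, fun b => ?_⟩
  · have := hcount ((Finset.univ.filter fun a => φ (.s a) = φ .z).image .s) (by
      intro r hr
      obtain ⟨a, ha, rfl⟩ := Finset.mem_image.1 hr
      exact ⟨.z, by simp, (Finset.mem_filter.1 ha).2.symm⟩)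
    rwa [Finset.card_image_of_injective _ (fun a a' h => by injection h)] at this
  have hE : ∀ y, φ y = φ (.e b (ej b)) → cl y = 9 := fun y e => by
    obtain ⟨j, rfl⟩ := hej b y e
    rfl
  have hze : φ .z ≠ φ (.e b (ej b)) := fun e => absurd (hE _ e) (by simp only [cl]; decide)
  by_contra hc
  refine hcf (φ (.o 0 (oj 0))) (φ (.o 1 (oj 1))) (φ .z) (φ (.e b (ej b)))
    (ad _ _ rfl (ne _ _ (by simp only [cl]; decide))) (ad _ _ rfl (ne .z _ (up7_ne _).1.symm).symm)
    (ad _ _ rfl (ne (.e _ _) _ (up7_ne _).2.2.symm).symm) (ne .z _ (up7_ne _).1.symm).symm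
    (ne (.e _ _) _ (up7_ne _).2.2.symm).symm hze
    (na 1 _ (fun p => p = 2 ∨ p = 7 ∨ p = 8) hZ (by decide)) (na 1 _ (· = 9) hE (by decide)) ?_
  rintro ⟨-, x, y, ex, ey, -, h | h | h⟩
  · rw [hE y ey] at h
    rcases hZ x ex with e | e | e <;> rw [e] at h <;> exact absurd h (by decide)
  · obtain ⟨a, b', j, rfl, rfl, hR⟩ := cross_elim h
    obtain ⟨j', e⟩ := hej b _ ey
    obtain rfl : b' = b := by injection e
    exact hc ⟨a, by simpa using ex, hR⟩
  · exact absurd ((hE y ey).symm.trans (cross_cl h).1) (by decide)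

def lo (a b : Fin 10) : Bool := tab a b || (a == 7 && b == 9) || (a == 9 && b == 7)

def up (a b : Fin 10) : Bool := lo a b || (a == 8 && b == 9) || (a == 9 && b == 8)

theorem no_claw' : ∀ c a₁ a₂ a₃ : Fin 10,
    (up c a₁ && (up c a₂ && (!lo a₁ a₂ && (up c a₃ && (!lo a₁ a₃ && !lo a₂ a₃))))) = false := by
  decide +kernel

theorem no_claw (c a₁ : Fin 10) (h1 : up c a₁ = true) (a₂ : Fin 10) (h2 : up c a₂ = true)
    (h12 : ¬ lo a₁ a₂ = true) (a₃ : Fin 10) (h3 : up c a₃ = true) (h13 : ¬ lo a₁ a₃ = true)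
    (h23 : ¬ lo a₂ a₃ = true) : False := by
  have := no_claw' c a₁ a₂ a₃
  simp [h1, h2, h3, h12, h13, h23] at this

theorem complete {R : A → A → Prop} {k : ℕ} (D : Finset A) (hD : D.card ≤ k)
    (hR : ∀ b, ∃ a ∈ D, R a b) : ClawFreeContractible k (gad J R) := by
  classical
  let φ : Wx A J → Wx A J := fun y => match y with
    | .s a => if a ∈ D then .z else .s a
    | y => y
  have hφ : ∀ y, φ y = y ∨ (φ y = .z ∧ ∃ a ∈ D, y = .s a) := by
    intro y
    cases y with
    | s a => by_cases ha : a ∈ D <;> simp [φ, ha]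
    | _ => exact .inl rfl
  have hidem : ∀ y, φ (φ y) = φ y := fun y => by
    rcases hφ y with e | ⟨e, -⟩
    · rw [e, e]
    · rw [e]
  refine of_map _ _ φ (D.image .s) (Finset.card_image_le.trans hD) ?_ ?_ ?_
  · have : ∀ y, y ∉ D.image .s → φ y = y := fun y hy => (hφ y).resolve_right
      fun ⟨_, a, ha, e⟩ => hy (Finset.mem_image.2 ⟨a, ha, e.symm⟩)
    intro x y hx hy h
    rwa [this x hx, this y hy] at h
  · intro r hr
    obtain ⟨a, ha, rfl⟩ := Finset.mem_image.1 hr
    exact ⟨.z, by simp, ⟨by simp, .inl rfl⟩, by simp [φ, ha]⟩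
  have hcl : ∀ y, cl (φ y) = cl y ∨ (cl y = 8 ∧ cl (φ y) = 7) := fun y => by
    rcases hφ y with e | ⟨e, a, -, rfl⟩
    · exact .inl (by rw [e])
    · exact .inr ⟨rfl, by rw [e]; rfl⟩
  have hup : ∀ {c a}, (quot (gad J R) φ).Adj c a → up (cl c) (cl a) = true ∧ φ a = a := by
    rintro c a ⟨-, x, y, rfl, rfl, -, h⟩
    refine ⟨?_, hidem y⟩
    have d : ∀ p q : Fin 10, (tab p q = true ∨ (p = 8 ∧ q = 9) ∨ (q = 8 ∧ p = 9)) →
        ∀ p', (p' = p ∨ (p = 8 ∧ p' = 7)) → ∀ q', (q' = q ∨ (q = 8 ∧ q' = 7)) →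
        up p' q' = true := by decide
    exact d _ _ (h.imp id (Or.imp cross_cl cross_cl)) _ (hcl x) _ (hcl y)
  have hze : ∀ x y : Wx A J, cl x = 7 → cl y = 9 → (quot (gad J R) φ).Adj x y := by
    intro x y hx hy
    obtain rfl : x = .z := by
      cases x with
      | z => rfl
      | o c j => exact absurd hx (up7_ne c).1
      | _ => exact absurd hx (by simp only [cl]; decide)
    obtain ⟨b, j, rfl⟩ : ∃ b j, y = .e b j := by
      cases y with
      | e b j => exact ⟨b, j, rfl⟩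
      | o c j => exact absurd hy (up7_ne c).2.2
      | _ => exact absurd hy (by simp only [cl]; decide)
    obtain ⟨a, ha, h⟩ := hR b
    exact ⟨by simp, .s a, .e b j, by simp [φ, ha], rfl, by simp, .inr (.inl h)⟩
  have hlo : ∀ {x y}, φ x = x → φ y = y → x ≠ y → lo (cl x) (cl y) = true →
      (quot (gad J R) φ).Adj x y := by
    intro x y hx hy hne h
    simp only [lo, Bool.or_eq_true, Bool.and_eq_true, beq_iff_eq] at h
    rcases h with (h | h) | h
    · exact ⟨hne, x, y, hx, hy, hne, .inl h⟩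
    · exact hze _ _ h.1 h.2
    · exact (hze _ _ h.2 h.1).symm
  rw [clawFree_iff]
  intro c a₁ a₂ a₃ h1 h2 h3 n12 n13 n23 m12 m13 m23
  exact no_claw _ _ (hup h1).1 _ (hup h2).1 (fun h => m12 (hlo (hup h1).2 (hup h2).2 n12 h)) _
    (hup h3).1 (fun h => m13 (hlo (hup h1).2 (hup h3).2 n13 h))
    (fun h => m23 (hlo (hup h2).2 (hup h3).2 n23 h))

end Pool.Agent.Lib.MP_7f80d9_lc.DS
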