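import Pool.Agent.Lib.MP_7f80d9_lc.Gadget
import Pool.Agent.Lib.helper80.PT

/-! The reduction on instances and its polynomial running time. -/

namespace Pool.Agent.Lib.MP_7f80d9_lc

open SimpleGraph Pool.Agent.Lib.helper80

def vlist (N m M : ℕ) : List (Vx (Fin N) (Fin m) (Fin M)) :=
  (List.finRange N).map .v ++
    ((List.finRange N).flatMap fun a => (List.finRange N).map (.p a)) ++ [.z] ++
    (List.finRange m).map .x ++ (List.finRange m).flatMap fun i => (List.finRange M).map (.b i)

theorem mem_vlist {N m M : ℕ} (y : Vx (Fin N) (Fin m) (Fin M)) : y ∈ vlist N m M := by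
  cases y <;> simp [vlist]

theorem nodup_flatMap_map {α β γ : Type} {l : List α} {l' : List β} (f : α → β → γ)
    (hf : ∀ a b a' b', f a b = f a' b' → a = a' ∧ b = b') (h : l.Nodup) (h' : l'.Nodup) :
    (l.flatMap fun a => l'.map (f a)).Nodup := by
  have := (h.product h').map (f := fun q : α × β => f q.1 q.2)
    (fun q q' e => Prod.ext (hf _ _ _ _ e).1 (hf _ _ _ _ e).2)
  simpa [SProd.sprod, List.product, List.map_flatMap, Function.comp_def] using this

theorem nodup_vlist (N m M : ℕ) : (vlist N m M).Nodup := by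
  have h1 : ((List.finRange N).map (Vx.v : _ → Vx (Fin N) (Fin m) (Fin M))).Nodup :=
    (List.nodup_finRange N).map fun a a' h => by injection h
  have h2 := nodup_flatMap_map (Vx.p : _ → _ → Vx (Fin N) (Fin m) (Fin M)) (by simp)
    (List.nodup_finRange N) (List.nodup_finRange N)
  have h3 : ((List.finRange m).map (Vx.x : _ → Vx (Fin N) (Fin m) (Fin M))).Nodup :=
    (List.nodup_finRange m).map fun a a' h => by injection h
  have h4 := nodup_flatMap_map (Vx.b : _ → _ → Vx (Fin N) (Fin m) (Fin M)) (by simp)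
    (List.nodup_finRange m) (List.nodup_finRange M)
  refine ((((h1.append h2 ?_).append (List.nodup_singleton _) ?_).append h3 ?_).append h4 ?_) <;>
    rw [List.disjoint_right] <;> simp <;> intros <;> subst_vars <;> simp

def rel (I : Inst) (M : ℕ) (u w : Fin (I.n + M)) : Prop :=
  ∃ (hu : u.1 < I.n) (hw : w.1 < I.n), u = w ∨ I.G.Adj ⟨u, hu⟩ ⟨w, hw⟩

def red (I : Inst) : Inst where
  n := (vlist (I.n + (I.k * I.k + I.k + 1)) (I.k * I.k) (I.k * I.k + I.k + 1)).length
  G := (gadget _ _ (rel I (I.k * I.k + I.k + 1))).comap (vlist _ _ _).get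
  k := I.k * I.k + I.k

theorem rel_iff (I : Inst) (M : ℕ) :
    (∃ s, I.G.IsNClique I.k s) ↔
      ∃ Q : Finset (Fin (I.n + M)), Q.card = I.k ∧ ∀ u ∈ Q, ∀ w ∈ Q, rel I M u w := by
  constructor
  · rintro ⟨s, hs, hc⟩
    refine ⟨s.map (Fin.castAddEmb M), by simpa using hc, ?_⟩
    simp only [Finset.mem_map]
    rintro _ ⟨u, hu, rfl⟩ _ ⟨w, hw, rfl⟩
    refine ⟨u.2, w.2, ?_⟩
    by_cases h : u = w
    · exact .inl (by rw [h])
    · exact .inr (hs hu hw h)
  · rintro ⟨Q, hc, hQ⟩
    refine ⟨Q.preimage (Fin.castAdd M) (Fin.castAdd_injective _ _).injOn, ?_, ?_⟩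
    · intro u hu w hw h
      simp only [Finset.coe_preimage, Set.mem_preimage, Finset.mem_coe] at hu hw
      obtain ⟨_, _, h1 | h1⟩ := hQ _ hu _ hw
      · exact absurd (Fin.castAdd_injective _ _ h1) h
      · exact h1
    · classical
      rw [Finset.card_preimage, Finset.filter_true_of_mem, hc]
      intro u hu
      obtain ⟨h, -, -⟩ := hQ u hu u hu
      exact ⟨⟨u, h⟩, rfl⟩

theorem red_correct (I : Inst) :
    (∃ s, I.G.IsNClique I.k s) ↔ ClawFreeContractible (red I).k (red I).G := by
  classical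
  have e : (red I).G ≃g gadget _ _ (rel I (I.k * I.k + I.k + 1)) :=
    ⟨List.Nodup.getEquivOfForallMemList _ (nodup_vlist _ _ _) mem_vlist, Iff.rfl⟩
  rw [rel_iff I (I.k * I.k + I.k + 1)]
  constructor
  · rintro ⟨Q, h1, h2⟩
    exact of_iso _ e.symm (complete (by simp) Q h1 h2)
  · intro h
    refine sound (by simp) (by simp) (Finset.univ.map (Fin.natAddEmb I.n)) (by simp) ?_
      (of_iso _ e h)
    simp only [Finset.mem_map]
    rintro _ ⟨a, -, rfl⟩ w
    exact ⟨fun ⟨h, _⟩ => by simp at h, fun ⟨_, h, _⟩ => by simp at h⟩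

/-! ### The same map on bit strings -/

def toD {N m M : ℕ} : Vx (Fin N) (Fin m) (Fin M) → ℕ × ℕ × ℕ
  | .v a => (0, a, 0)
  | .p a b => (1, a, b)
  | .z => (2, 0, 0)
  | .x i => (3, i, 0)
  | .b i j => (4, i, j)

def dlist (N m M : ℕ) : List (ℕ × ℕ × ℕ) :=
  (List.range N).map (fun a => (0, a, 0)) ++
    ((List.range N).flatMap fun a => (List.range N).map fun b => (1, a, b)) ++ [(2, 0, 0)] ++
    (List.range m).map (fun a => (3, a, 0)) ++
    (List.range m).flatMap fun i => (List.range M).map fun j => (4, i, j)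

theorem map_toD (N m M : ℕ) : (vlist N m M).map toD = dlist N m M := by
  simp [vlist, dlist, ← List.map_coe_finRange_eq_range, List.map_flatMap, List.flatMap_map,
    Function.comp_def, toD]

def relB (n : ℕ) (mat : List Bool) (u w : ℕ) : Bool :=
  Nat.blt u n && (Nat.blt w n && (Nat.beq u w || mat.getD (u * n + w) false))

def adjB (n : ℕ) (mat : List Bool) (a b : ℕ × ℕ × ℕ) : Bool :=
  bif Nat.beq a.1 0 then
    (bif Nat.beq b.1 0 then !Nat.beq a.2.1 b.2.1
    else bif Nat.beq b.1 1 then
      relB n mat b.2.1 b.2.2 && (Nat.beq a.2.1 b.2.1 || Nat.beq a.2.1 b.2.2)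
    else Nat.beq b.1 2)
  else bif Nat.beq a.1 1 then
    (bif Nat.beq b.1 0 then
      relB n mat a.2.1 a.2.2 && (Nat.beq b.2.1 a.2.1 || Nat.beq b.2.1 a.2.2)
    else bif Nat.beq b.1 1 then !(Nat.beq a.2.1 b.2.1 && Nat.beq a.2.2 b.2.2)
    else bif Nat.beq b.1 3 then relB n mat a.2.1 a.2.2
    else Nat.beq b.1 2)
  else bif Nat.beq a.1 2 then
    Nat.beq b.1 0 || Nat.beq b.1 1 || Nat.beq b.1 3
  else bif Nat.beq a.1 3 then
    (bif Nat.beq b.1 1 then relB n mat b.2.1 b.2.2
    else bif Nat.beq b.1 4 then Nat.beq a.2.1 b.2.1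
    else Nat.beq b.1 2)
  else
    (bif Nat.beq b.1 3 then Nat.beq a.2.1 b.2.1
    else Nat.beq b.1 4 && Nat.beq a.2.1 b.2.1 && !Nat.beq a.2.2 b.2.2)

def outB (n k : ℕ) (mat : List Bool) (D : List (ℕ × ℕ × ℕ)) : List Bool :=
  List.replicate D.length true ++ false :: (List.replicate (k * k + k) true ++ false ::
    D.flatMap fun a => D.map fun b => adjB n mat a b)

def redB (n k : ℕ) (mat : List Bool) : List Bool :=
  outB n k mat (dlist (n + (k * k + k + 1)) (k * k) (k * k + k + 1))

def redBits (l : List Bool) : List Bool :=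
  redB (lead l) (lead (l.drop (lead l + 1))) ((l.drop (lead l + 1)).drop (lead (l.drop (lead l + 1)) + 1))

@[fun_prop] theorem pt_relB {α : Type} [Enc α] {n u w : α → ℕ} {mat : α → List Bool} (hn : PT n)
    (hm : PT mat) (hu : PT u) (hw : PT w) : PT fun a => relB (n a) (mat a) (u a) (w a) := by
  unfold relB; fun_prop

@[fun_prop] theorem pt_adjB {α : Type} [Enc α] {n : α → ℕ} {mat : α → List Bool}
    {u w : α → ℕ × ℕ × ℕ} (hn : PT n) (hm : PT mat) (hu : PT u) (hw : PT w) :
    PT fun a => adjB (n a) (mat a) (u a) (w a) := by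
  unfold adjB; fun_prop

@[fun_prop] theorem pt_dlist {α : Type} [Enc α] {n u w : α → ℕ} (hn : PT n)
    (hu : PT u) (hw : PT w) : PT fun a => dlist (n a) (u a) (w a) := by
  unfold dlist; fun_prop

@[fun_prop] theorem pt_outB {α : Type} [Enc α] {n k : α → ℕ} {mat : α → List Bool}
    {D : α → List (ℕ × ℕ × ℕ)} (hn : PT n) (hk : PT k) (hm : PT mat) (hD : PT D) :
    PT fun a => outB (n a) (k a) (mat a) (D a) := by
  unfold outB; fun_prop

theorem pt_redBits : PT redBits := by
  unfold redBits redB; fun_prop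

theorem getD_matrix {α : Type} (n : ℕ) (f : α → List Bool) (hf : ∀ a, (f a).length = n) (w : ℕ)
    (hw : w < n) : ∀ (l : List α) (u : ℕ) (hu : u < l.length),
      (l.flatMap f).getD (u * n + w) false = (f l[u]).getD w false := by
  intro l
  induction l with
  | nil => intro u hu; simp at hu
  | cons a l ih =>
    intro u hu
    cases u with
    | zero => simp [List.getElem?_append_left (show w < (f a).length by rw [hf]; exact hw)]
    | succ u =>
      have := ih u (by simpa using hu)
      simp only [List.getD_eq_getElem?_getD] at this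
      simp only [List.flatMap_cons, List.getD_eq_getElem?_getD, List.getElem_cons_succ]
      rw [List.getElem?_append_right (by rw [hf]; nlinarith), hf,
        show (u + 1) * n + w - n = u * n + w by rw [Nat.succ_mul]; omega, this]

open Classical in
noncomputable def matrix (I : Inst) : List Bool :=
  (List.finRange I.n).flatMap fun i => (List.finRange I.n).map fun j => decide (I.G.Adj i j)

theorem relB_iff (I : Inst) (M : ℕ) (u w : Fin (I.n + M)) :
    relB I.n (matrix I) u w = true ↔ rel I M u w := by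
  unfold relB rel
  simp only [Bool.and_eq_true, Nat.blt_eq, Bool.or_eq_true, Nat.beq_eq, Fin.val_inj]
  constructor
  · rintro ⟨hu, hw, h⟩
    refine ⟨hu, hw, h.imp id fun h => ?_⟩
    rw [matrix, getD_matrix I.n _ (by simp) _ hw _ _ (by simpa using hu)] at h
    simpa [List.getD_eq_getElem?_getD, hw] using h
  · rintro ⟨hu, hw, h⟩
    refine ⟨hu, hw, h.imp id fun h => ?_⟩
    rw [matrix, getD_matrix I.n _ (by simp) _ hw _ _ (by simpa using hu)]
    simpa [List.getD_eq_getElem?_getD, hw] using h

theorem adjB_iff (I : Inst) (M m : ℕ) (a b : Vx (Fin (I.n + M)) (Fin m) (Fin M)) :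
    adjB I.n (matrix I) (toD a) (toD b) = true ↔ gadj (rel I M) a b := by
  cases a <;> cases b <;> simp [adjB, toD, gadj, relB_iff, Fin.val_inj, ← Bool.not_eq_true,
    imp_iff_not_or]

theorem drop_replicate_false (n : ℕ) (l : List Bool) :
    (List.replicate n true ++ false :: l).drop (n + 1) = l := by
  induction n with
  | zero => rfl
  | succ n ih => simpa [List.replicate_succ] using ih

theorem redBits_code (I : Inst) : redBits I.code = (red I).code := by
  have h1 : lead I.code = I.n := lead_replicate _ _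
  have h2 : I.code.drop (I.n + 1) = List.replicate I.k true ++ false :: matrix I :=
    drop_replicate_false _ _
  have h3 : (List.replicate I.k true ++ false :: matrix I).drop (I.k + 1) = matrix I :=
    drop_replicate_false _ _
  rw [redBits, h1, h2, lead_replicate, h3, redB, outB, ← map_toD]
  simp only [Inst.code, red, List.length_map, List.flatMap_map, List.map_map]
  congr 4
  conv_lhs => rw [← List.map_get_finRange (vlist _ _ _)]
  simp only [List.flatMap_map, List.map_map]
  congr 1
  funext i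
  congr 1
  funext j
  rw [Bool.eq_iff_iff]
  simp only [Function.comp, adjB_iff]
  exact (@decide_eq_true_iff _ (_)).symm

theorem main : ∃ f : Inst → Inst,
    Nonempty (Turing.TM2ComputableInPolyTime Inst.code Inst.code f) ∧
    ∀ I, (f I).k = I.k ^ 2 + I.k ∧
      ((∃ s, I.G.IsNClique I.k s) ↔ ClawFreeContractible (f I).k (f I).G) :=
  ⟨red, pt_redBits.toTM2 _ _ _ redBits_code, fun I => ⟨by simp [red, sq], red_correct I⟩⟩

end Pool.Agent.Lib.MP_7f80d9_lc
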