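import Pool.Agent.Lib.MP_7f80d9_lc.Gadget2
import Pool.Agent.Lib.MP_7f80d9_lc.Red

/-! The reduction from Dominating Set on instances and its polynomial running time. -/

namespace Pool.Agent.Lib.MP_7f80d9_lc.DS

open SimpleGraph Pool.Agent.Lib.helper80

def vlist (N M : ℕ) : List (Wx (Fin N) (Fin M)) :=
  [.z] ++ (List.finRange N).map .s ++
    ((List.finRange N).flatMap fun a => (List.finRange M).map (.e a)) ++
    (List.finRange 7).flatMap fun c => (List.finRange M).map (.o c)

theorem mem_vlist {N M : ℕ} (y : Wx (Fin N) (Fin M)) : y ∈ vlist N M := by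
  cases y <;> simp only [vlist, List.mem_append, List.mem_map, List.mem_flatMap, List.mem_singleton,
    List.mem_finRange, true_and] <;> simp

theorem nodup_vlist (N M : ℕ) : (vlist N M).Nodup := by
  have h1 : ((List.finRange N).map (Wx.s : _ → Wx (Fin N) (Fin M))).Nodup :=
    (List.nodup_finRange N).map fun a a' h => by injection h
  have h2 := nodup_flatMap_map (Wx.e : _ → _ → Wx (Fin N) (Fin M)) (by simp)
    (List.nodup_finRange N) (List.nodup_finRange M)
  have h3 := nodup_flatMap_map (Wx.o : _ → _ → Wx (Fin N) (Fin M)) (by simp)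
    (List.nodup_finRange 7) (List.nodup_finRange M)
  refine ((((List.nodup_singleton _).append h1 ?_).append h2 ?_).append h3 ?_) <;>
    rw [List.disjoint_right] <;>
    simp only [List.mem_append, List.mem_map, List.mem_flatMap, List.mem_singleton,
      List.mem_finRange, true_and]
  · rintro _ ⟨a, rfl⟩
    simp
  · rintro _ ⟨a, j, rfl⟩
    simp
  · rintro _ ⟨a, j, rfl⟩
    simp

def rel (I : Inst) (a b : Fin I.n) : Prop := a = b ∨ I.G.Adj a b

def red (I : Inst) : Inst where
  n := (vlist I.n (I.k + 1)).length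
  G := (gad _ (rel I)).comap (vlist _ _).get
  k := I.k

theorem red_correct (I : Inst) :
    (∃ D : Finset (Fin I.n), D.card ≤ I.k ∧ ∀ v, v ∈ D ∨ ∃ u ∈ D, I.G.Adj u v) ↔
      ClawFreeContractible (red I).k (red I).G := by
  classical
  have e : (red I).G ≃g gad _ (rel I) :=
    ⟨List.Nodup.getEquivOfForallMemList _ (nodup_vlist _ _) mem_vlist, Iff.rfl⟩
  constructor
  · rintro ⟨D, h1, h2⟩
    refine of_iso _ e.symm (complete D h1 fun b => ?_)
    rcases h2 b with h | ⟨u, hu, h⟩
    · exact ⟨b, h, .inl rfl⟩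
    · exact ⟨u, hu, .inr h⟩
  · intro h
    obtain ⟨D, h1, h2⟩ := sound (by simp [red]) (of_iso _ e h)
    refine ⟨D, h1, fun v => ?_⟩
    obtain ⟨a, ha, rfl | h⟩ := h2 v
    · exact .inl ha
    · exact .inr ⟨a, ha, h⟩

/-! ### The same map on bit strings -/

def toD {N M : ℕ} : Wx (Fin N) (Fin M) → ℕ × ℕ × ℕ
  | .z => (7, 0, 0)
  | .s a => (8, a, 0)
  | .e a j => (9, a, j)
  | .o c j => (c, 0, j)

def dlist (N M : ℕ) : List (ℕ × ℕ × ℕ) :=
  [(7, 0, 0)] ++ (List.range N).map (fun a => (8, a, 0)) ++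
    ((List.range N).flatMap fun a => (List.range M).map fun j => (9, a, j)) ++
    (List.range 7).flatMap fun c => (List.range M).map fun j => (c, 0, j)

theorem map_toD (N M : ℕ) : (vlist N M).map toD = dlist N M := by
  simp only [vlist, dlist, ← List.map_coe_finRange_eq_range, List.map_flatMap, List.flatMap_map,
    Function.comp_def, toD, List.map_append, List.map_map, List.map_cons, List.map_nil]

def crossB (n : ℕ) (mat : List Bool) (a b : ℕ × ℕ × ℕ) : Bool :=
  Nat.beq a.1 8 && (Nat.beq b.1 9 && relB n mat a.2.1 b.2.1)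

def adjB (n : ℕ) (mat : List Bool) (a b : ℕ × ℕ × ℕ) : Bool :=
  !(Nat.beq a.1 b.1 && (Nat.beq a.2.1 b.2.1 && Nat.beq a.2.2 b.2.2)) &&
    (tabL.getD (a.1 * 10 + b.1) false || (crossB n mat a b || crossB n mat b a))

def outB (n k : ℕ) (mat : List Bool) (D : List (ℕ × ℕ × ℕ)) : List Bool :=
  List.replicate D.length true ++ false :: (List.replicate k true ++ false ::
    D.flatMap fun a => D.map fun b => adjB n mat a b)

def redB (n k : ℕ) (mat : List Bool) : List Bool := outB n k mat (dlist n (k + 1))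

def redBits (l : List Bool) : List Bool :=
  redB (lead l) (lead (l.drop (lead l + 1))) ((l.drop (lead l + 1)).drop (lead (l.drop (lead l + 1)) + 1))

@[fun_prop] theorem pt_crossB {α : Type} [Enc α] {n : α → ℕ} {mat : α → List Bool}
    {u w : α → ℕ × ℕ × ℕ} (hn : PT n) (hm : PT mat) (hu : PT u) (hw : PT w) :
    PT fun a => crossB (n a) (mat a) (u a) (w a) := by
  unfold crossB; fun_prop

@[fun_prop] theorem pt_adjB {α : Type} [Enc α] {n : α → ℕ} {mat : α → List Bool}
    {u w : α → ℕ × ℕ × ℕ} (hn : PT n) (hm : PT mat) (hu : PT u) (hw : PT w) :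
    PT fun a => adjB (n a) (mat a) (u a) (w a) := by
  unfold adjB; fun_prop

@[fun_prop] theorem pt_dlist {α : Type} [Enc α] {n u : α → ℕ} (hn : PT n) (hu : PT u) :
    PT fun a => dlist (n a) (u a) := by
  unfold dlist; fun_prop

@[fun_prop] theorem pt_outB {α : Type} [Enc α] {n k : α → ℕ} {mat : α → List Bool}
    {D : α → List (ℕ × ℕ × ℕ)} (hn : PT n) (hk : PT k) (hm : PT mat) (hD : PT D) :
    PT fun a => outB (n a) (k a) (mat a) (D a) := by
  unfold outB; fun_prop

theorem pt_redBits : PT redBits := by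
  unfold redBits redB; fun_prop

theorem relB_iff (I : Inst) (u w : Fin I.n) : relB I.n (matrix I) u w = true ↔ rel I u w := by
  unfold relB rel
  simp only [Bool.and_eq_true, Nat.blt_eq, Bool.or_eq_true, Nat.beq_eq, Fin.val_inj, u.2, w.2,
    true_and]
  refine or_congr Iff.rfl ?_
  rw [matrix, getD_matrix I.n _ (by simp) _ w.2 _ _ (by simp)]
  simp [List.getD_eq_getElem?_getD]

theorem toD_fst {N M : ℕ} (a : Wx (Fin N) (Fin M)) : (toD a).1 = (cl a).1 := by
  cases a <;> rfl

theorem toD_inj {N M : ℕ} {a b : Wx (Fin N) (Fin M)} (h : toD a = toD b) : a = b := by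
  cases a <;> cases b <;> simp only [toD, Prod.mk.injEq, Fin.val_inj] at h <;>
    first | rfl | omega | simp_all

theorem crossB_iff (I : Inst) (M : ℕ) (a b : Wx (Fin I.n) (Fin M)) :
    crossB I.n (matrix I) (toD a) (toD b) = true ↔ cross (rel I) a b := by
  cases a <;> cases b <;> simp [crossB, toD, cross, relB_iff] <;> omega

theorem adjB_iff (I : Inst) (M : ℕ) (a b : Wx (Fin I.n) (Fin M)) :
    adjB I.n (matrix I) (toD a) (toD b) = true ↔ (gad _ (rel I)).Adj a b := by
  have h : (!(Nat.beq (toD a).1 (toD b).1 && (Nat.beq (toD a).2.1 (toD b).2.1 &&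
      Nat.beq (toD a).2.2 (toD b).2.2))) = true ↔ a ≠ b := by
    rw [Bool.not_eq_true', ← Bool.not_eq_true]
    refine not_congr ?_
    simp only [Bool.and_eq_true, Nat.beq_eq]
    exact ⟨fun h => toD_inj (Prod.ext h.1 (Prod.ext h.2.1 h.2.2)), fun h => by simp [h]⟩
  unfold adjB
  rw [Bool.and_eq_true, h, Bool.or_eq_true, Bool.or_eq_true, crossB_iff, crossB_iff, toD_fst, toD_fst]
  exact Iff.rfl

theorem redBits_code (I : Inst) : redBits I.code = (red I).code := by
  have h1 : lead I.code = I.n := lead_replicate _ _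
  have h2 : I.code.drop (I.n + 1) = List.replicate I.k true ++ false :: matrix I :=
    drop_replicate_false _ _
  have h3 : (List.replicate I.k true ++ false :: matrix I).drop (I.k + 1) = matrix I :=
    drop_replicate_false _ _
  rw [redBits, h1, h2, lead_replicate, h3, redB, outB, ← map_toD]
  simp only [Inst.code, red, List.length_map, List.flatMap_map, List.map_map]
  congr 4
  conv_lhs => rw [← List.map_get_finRange (vlist _ _)]
  simp only [List.flatMap_map, List.map_map]
  congr 1
  funext i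
  congr 1
  funext j
  rw [Bool.eq_iff_iff]
  simp only [Function.comp, adjB_iff]
  exact (@decide_eq_true_iff _ (_)).symm

theorem main : ∃ f : Inst → Inst,
    Nonempty (Turing.TM2ComputableInPolyTime Inst.code Inst.code f) ∧
    ∀ I : Inst, (f I).k = I.k ∧
      ((∃ D : Finset (Fin I.n), D.card ≤ I.k ∧ ∀ v, v ∈ D ∨ ∃ u ∈ D, I.G.Adj u v) ↔
        ClawFreeContractible (f I).k (f I).G) :=
  ⟨red, pt_redBits.toTM2 _ _ _ redBits_code, fun I => ⟨rfl, red_correct I⟩⟩

end Pool.Agent.Lib.MP_7f80d9_lc.DS
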