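import Pool.Agent.Lib.MP_7f80d9_lc.Defs
import Mathlib.Tactic

namespace Pool.Agent.Lib.MP_7f80d9_lc

open SimpleGraph

theorem clawFree_iff {V : Type} (G : SimpleGraph V) : ClawFree G ↔
    ∀ c a₁ a₂ a₃, G.Adj c a₁ → G.Adj c a₂ → G.Adj c a₃ → a₁ ≠ a₂ → a₁ ≠ a₃ → a₂ ≠ a₃ →
      ¬ G.Adj a₁ a₂ → ¬ G.Adj a₁ a₃ → ¬ G.Adj a₂ a₃ → False := by
  constructor
  · intro h c a₁ a₂ a₃ h1 h2 h3 n12 n13 n23 m12 m13 m23
    have m21 : ¬ G.Adj a₂ a₁ := fun h => m12 h.symm
    have m31 : ¬ G.Adj a₃ a₁ := fun h => m13 h.symm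
    have m32 : ¬ G.Adj a₃ a₂ := fun h => m23 h.symm
    have c1 := h1.ne
    have c2 := h2.ne
    have c3 := h3.ne
    let g : Fin 1 ⊕ Fin 3 → V := Sum.elim (fun _ => c) ![a₁, a₂, a₃]
    have hg : Function.Injective g := by
      rintro (i | i) (j | j) <;> fin_cases i <;> fin_cases j <;>
        simp [g, c1, c2, c3, c1.symm, c2.symm, c3.symm, n12, n13, n23, n12.symm, n13.symm, n23.symm]
    have hg2 : ∀ a b, G.Adj (g a) (g b) ↔ (completeBipartiteGraph (Fin 1) (Fin 3)).Adj a b := by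
      rintro (i | i) (j | j) <;> fin_cases i <;> fin_cases j <;>
        simp [g, h1, h2, h3, h1.symm, h2.symm, h3.symm, m12, m13, m23, m21, m31, m32]
    exact h ⟨⟨⟨g, hg⟩, hg2 _ _⟩⟩
  · rintro h ⟨f⟩
    refine h (f (.inl 0)) (f (.inr 0)) (f (.inr 1)) (f (.inr 2)) ?_ ?_ ?_ ?_ ?_ ?_ ?_ ?_ ?_ <;>
      simp [f.map_adj_iff]

/-- The image of `G` under a map of the vertices. -/
def quot {V W : Type} (G : SimpleGraph V) (φ : V → W) : SimpleGraph W where
  Adj a b := a ≠ b ∧ ∃ x y, φ x = a ∧ φ y = b ∧ G.Adj x y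
  symm := ⟨fun _ _ ⟨h, x, y, h1, h2, h3⟩ => ⟨h.symm, y, x, h2, h1, h3.symm⟩⟩
  loopless := ⟨fun _ h => h.1 rfl⟩

theorem quot_adj {V W : Type} {G : SimpleGraph V} {φ : V → W} {x y : V} (h : G.Adj x y)
    (hne : φ x ≠ φ y) : (quot G φ).Adj (φ x) (φ y) := ⟨hne, x, y, rfl, rfl, h⟩

def Conn {V W : Type} (G : SimpleGraph V) (φ : V → W) : Prop :=
  ∀ (S : Set V) x y, x ∈ S → y ∉ S → φ x = φ y →
    ∃ x' y', x' ∈ S ∧ y' ∉ S ∧ G.Adj x' y' ∧ φ x' = φ x ∧ φ y' = φ x

def Count {V W : Type} (φ : V → W) (K : ℕ) : Prop :=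
  ∀ R : Finset V, (∀ r ∈ R, ∃ y, y ∉ R ∧ φ y = φ r) → R.card ≤ K

open Classical in
noncomputable def merge {V : Type} {u v : V} (h : u ≠ v) (x : V) : {x : V // x ≠ v} :=
  if hx : x = v then ⟨u, h⟩ else ⟨x, hx⟩

theorem merge_of_ne {V : Type} {u v : V} (h : u ≠ v) {x : V} (hx : x ≠ v) :
    merge h x = ⟨x, hx⟩ := by simp [merge, hx]

theorem merge_val {V : Type} {u v : V} (h : u ≠ v) (x : {x : V // x ≠ v}) : merge h x.1 = x :=
  merge_of_ne h x.2

theorem merge_self {V : Type} {u v : V} (h : u ≠ v) : merge h v = ⟨u, h⟩ := by simp [merge]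

theorem quot_contract {V W : Type} (G : SimpleGraph V) {u v : V} (huv : u ≠ v) (φ : V → W)
    (hφ : φ u = φ v) : quot (contract G u v) (fun x => φ x.1) = quot G φ := by
  ext a b
  constructor
  · rintro ⟨hab, x, y, rfl, rfl, -, h | ⟨h1, h⟩ | ⟨h1, h⟩⟩
    · exact ⟨hab, x, y, rfl, rfl, h⟩
    · exact ⟨hab, v, y, by rw [← hφ, ← h1], rfl, h⟩
    · exact ⟨hab, x, v, rfl, by rw [← hφ, ← h1], h⟩
  · rintro ⟨hab, x, y, rfl, rfl, h⟩
    by_cases hx : x = v
    · subst hx
      exact ⟨hab, ⟨u, huv⟩, ⟨y, h.ne.symm⟩, hφ, rfl,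
        fun e => hab (by rw [← hφ]; exact congrArg (fun z => φ z.1) e), .inr (.inl ⟨rfl, h⟩)⟩
    by_cases hy : y = v
    · subst hy
      exact ⟨hab, ⟨x, hx⟩, ⟨u, huv⟩, rfl, hφ,
        fun e => hab (by rw [← hφ]; exact congrArg (fun z => φ z.1) e), .inr (.inr ⟨rfl, h⟩)⟩
    · exact ⟨hab, ⟨x, hx⟩, ⟨y, hy⟩, rfl, rfl,
        fun e => hab (congrArg (fun z => φ z.1) e), .inl h⟩

theorem quot_id {V : Type} (G : SimpleGraph V) : quot G (fun x => x) = G := by
  ext a b
  exact ⟨fun ⟨_, _, _, h1, h2, h⟩ => h1 ▸ h2 ▸ h, fun h => ⟨h.ne, a, b, rfl, rfl, h⟩⟩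

theorem witness_id {V : Type} {G : SimpleGraph V} (h : ClawFree G) (K : ℕ) :
    ∃ (W : Type) (φ : V → W), ClawFree (quot G φ) ∧ Conn G φ ∧ Count φ K := by
  refine ⟨V, fun x => x, by rwa [quot_id], fun S x y hx hy e => absurd ((show x = y from e) ▸ hx) hy,
    fun R hR => ?_⟩
  rcases R.eq_empty_or_nonempty with rfl | ⟨r, hr⟩
  · simp
  · obtain ⟨y, hy, e⟩ := hR r hr
    exact absurd ((show y = r from e) ▸ hr) hy

theorem witness (K : ℕ) : ∀ {V : Type} (G : SimpleGraph V), ClawFreeContractible K G →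
    ∃ (W : Type) (φ : V → W), ClawFree (quot G φ) ∧ Conn G φ ∧ Count φ K := by
  classical
  induction K with
  | zero => exact fun G h => witness_id h 0
  | succ K ih =>
    rintro V G (h | ⟨u, v, huv, h⟩)
    · exact witness_id h _
    obtain ⟨W, ψ, h1, h2, h3⟩ := ih _ h
    have hne := huv.ne
    have e1 : ψ (merge hne u) = ψ (merge hne v) := by rw [merge_self, merge_of_ne hne hne]
    refine ⟨W, fun x => ψ (merge hne x), ?_, ?_, ?_⟩
    · rw [← quot_contract G hne _ e1]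
      simpa only [merge_val] using h1
    · intro S x y hx hy e
      by_cases hc : ψ (merge hne u) = ψ (merge hne x) ∧ ¬ (u ∈ S ↔ v ∈ S)
      · by_cases hu : u ∈ S
        · exact ⟨u, v, hu, fun hv => hc.2 (by simp [hu, hv]), huv, hc.1, e1.symm.trans hc.1⟩
        · have hv : v ∈ S := by
            by_contra hv
            exact hc.2 (by simp [hu, hv])
          exact ⟨v, u, hv, hu, huv.symm, e1.symm.trans hc.1, hc.1⟩
      have hc' : ψ (merge hne u) = ψ (merge hne x) → (u ∈ S ↔ v ∈ S) := by tauto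
      have key : ∀ t, ψ (merge hne t) = ψ (merge hne x) → ((merge hne t).1 ∈ S ↔ t ∈ S) := by
        intro t ht
        by_cases htv : t = v
        · subst htv
          rw [merge_self]
          exact hc' (e1.trans ht)
        · rw [merge_of_ne hne htv]
      obtain ⟨x', y', hx', hy', ⟨-, hadj⟩, ex, ey⟩ := h2 {z | z.1 ∈ S} (merge hne x) (merge hne y)
        ((key x rfl).2 hx) (fun h => hy ((key y e.symm).1 h)) e
      rcases hadj with h | ⟨hu, h⟩ | ⟨hu, h⟩
      · exact ⟨x', y', hx', hy', h, by simpa only [merge_val] using ex,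
          by simpa only [merge_val] using ey⟩
      · have e2 : ψ (merge hne u) = ψ (merge hne x) := by
          rw [merge_of_ne hne hne, ← ex]; exact congrArg ψ (Subtype.ext hu.symm)
        exact ⟨v, y', (hc' e2).1 (hu ▸ hx'), hy', h, e1.symm.trans e2,
          by simpa only [merge_val] using ey⟩
      · have e2 : ψ (merge hne u) = ψ (merge hne x) := by
          rw [merge_of_ne hne hne, ← ey]; exact congrArg ψ (Subtype.ext hu.symm)
        exact ⟨x', v, hx', fun hv => hy' (show y'.1 ∈ S from hu ▸ (hc' e2).2 hv), h,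
          by simpa only [merge_val] using ex, e1.symm.trans e2⟩
    · intro R hR
      obtain ⟨w, hw⟩ : ∃ w, (v ∈ R ∧ w = v) ∨ (v ∉ R ∧ w = u) := by
        by_cases hv : v ∈ R
        · exact ⟨v, .inl ⟨hv, rfl⟩⟩
        · exact ⟨u, .inr ⟨hv, rfl⟩⟩
      have h4 := h3 ((R.erase w).subtype (· ≠ v)) (by
        intro r hr
        simp only [Finset.mem_subtype, Finset.mem_erase] at hr
        obtain ⟨y, hy, e⟩ := hR r hr.2
        refine ⟨merge hne y, ?_, by simpa only [merge_val] using e⟩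
        simp only [Finset.mem_subtype, Finset.mem_erase, not_and]
        intro h5
        by_cases hyv : y = v
        · subst hyv
          rw [merge_self] at h5
          rcases hw with ⟨h6, -⟩ | ⟨-, h6⟩
          · exact absurd h6 hy
          · exact absurd h6.symm h5
        · rw [merge_of_ne hne hyv]; exact hy)
      rw [Finset.card_subtype, Finset.filter_true_of_mem] at h4
      · have := Finset.pred_card_le_card_erase (s := R) (a := w)
        omega
      · intro x hx hxv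
        subst hxv
        rw [Finset.mem_erase] at hx
        rcases hw with ⟨-, h6⟩ | ⟨h6, -⟩
        · exact hx.1 h6.symm
        · exact h6 hx.2

theorem of_map (K : ℕ) : ∀ {V W : Type} (G : SimpleGraph V) (φ : V → W) (R : Finset V),
    R.card ≤ K → (∀ x y, x ∉ R → y ∉ R → φ x = φ y → x = y) →
    (∀ r ∈ R, ∃ p, p ∉ R ∧ G.Adj p r ∧ φ p = φ r) → ClawFree (quot G φ) →
    ClawFreeContractible K G := by
  classical
  have base : ∀ {V W : Type} (G : SimpleGraph V) (φ : V → W), Function.Injective φ →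
      ClawFree (quot G φ) → ClawFree G := by
    intro V W G φ hφ h ⟨f⟩
    refine h ⟨Embedding.comp ⟨⟨φ, hφ⟩, ?_⟩ f⟩
    intro a b
    exact ⟨fun ⟨_, _, _, h1, h2, h⟩ => hφ h1 ▸ hφ h2 ▸ h, fun h => quot_adj h (hφ.ne h.ne)⟩
  induction K with
  | zero =>
    intro V W G φ R hR h1 _ h3
    obtain rfl : R = ∅ := Finset.card_eq_zero.1 (by omega)
    exact base G φ (fun x y => h1 x y (by simp) (by simp)) h3
  | succ K ih =>
    intro V W G φ R hR h1 h2 h3
    rcases R.eq_empty_or_nonempty with rfl | ⟨r, hr⟩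
    · exact .inl (base G φ (fun x y => h1 x y (by simp) (by simp)) h3)
    obtain ⟨p, hp, hadj, e⟩ := h2 r hr
    refine .inr ⟨p, r, hadj, ih _ (fun x => φ x.1) (R.subtype (· ≠ r)) ?_ ?_ ?_ ?_⟩
    · rw [Finset.card_subtype, Finset.filter_ne', Finset.card_erase_of_mem hr]
      omega
    · intro x y hx hy h
      exact Subtype.ext (h1 x y (by simpa using hx) (by simpa using hy) h)
    · intro s hs
      obtain ⟨q, hq, hadj', e'⟩ := h2 s (by simpa using hs)
      exact ⟨⟨q, fun h => hq (h ▸ hr)⟩, by simpa using hq,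
        ⟨fun h => hadj'.ne (congrArg Subtype.val h), .inl hadj'⟩, e'⟩
    · rwa [quot_contract G hadj.ne φ e]

theorem of_iso (K : ℕ) : ∀ {V V' : Type} {G : SimpleGraph V} {G' : SimpleGraph V'} (_ : G ≃g G'),
    ClawFreeContractible K G → ClawFreeContractible K G' := by
  have base : ∀ {V V' : Type} {G : SimpleGraph V} {G' : SimpleGraph V'} (_ : G ≃g G'),
      ClawFree G → ClawFree G' := fun e h ⟨f⟩ => h ⟨e.symm.toEmbedding.comp f⟩
  induction K with
  | zero => exact fun e h => base e h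
  | succ K ih =>
    rintro V V' G G' e (h | ⟨u, v, huv, h⟩)
    · exact .inl (base e h)
    refine .inr ⟨e u, e v, e.map_adj_iff.2 huv, ih ⟨e.toEquiv.subtypeEquiv (by simp), ?_⟩ h⟩
    intro a b
    simp [contract, e.map_adj_iff, Subtype.ext_iff]

end Pool.Agent.Lib.MP_7f80d9_lc
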